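import Mathlib
import Pool.Agent.R188.FinDep

set_option autoImplicit false

open MeasureTheory ProbabilityTheory

namespace Pool.Agent.Results.MP_5c5aaa_pr.NoPeriodicPoint

open Pool.Agent.R188.FD

/-- **A finitely dependent process whose support contains no periodic point, in every dimension
`d ≥ 2`.**  For every `d ≥ 2` there is a random field `X` on `ℤ^d` with values in an alphabet of
four letters which is shift-invariant (in law) and finitely dependent (its restrictions to any two
sets at sup-distance at least `2` are independent), whose support is nonempty and contains no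
periodic configuration (no configuration whose stabiliser has finite index in `ℤ^d`). -/
theorem result (d : ℕ) (hd : 2 ≤ d) :
    ∃ (Ω : Type) (_ : MeasurableSpace Ω) (P : Measure Ω) (_ : IsProbabilityMeasure P)
      (X : (Fin d → ℤ) → Ω → Fin 4),
      (∀ v, Measurable (X v)) ∧ ShiftInvariant P X ∧ FinitelyDependent P X ∧
      DependentRange 2 P X ∧ (support P X).Nonempty ∧
      ∀ x ∈ support P X, ¬ IsPeriodic x := by
  obtain ⟨n, rfl⟩ : ∃ n, d = n + 2 := ⟨d - 2, by omega⟩
  exact ⟨(Fin (n + 2) → ℤ) → UnitAddCircle, inferInstance, P, inferInstance, X, measurable_X,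
    shiftInvariant_X, ⟨2, dependentRange_X⟩, dependentRange_X, support_nonempty,
    fun x hx => not_periodic hx⟩

end Pool.Agent.Results.MP_5c5aaa_pr.NoPeriodicPoint
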